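import Pool.Agent.NH28.EL.Par
import Pool.Agent.NH28.EL.PUSH
import Pool.Agent.NH28.EL.FOL
import Pool.Agent.NH28.EL.Dfs

set_option autoImplicit false

/-!
# MP_3dbb84_gt, Q1: exact Lagrangian submanifolds of the cotangent bundle of a compact flat manifold which
are transverse to a field of Lagrangian planes depending on the momentum

Let `N = ℝⁿ / Γ` be any compact flat manifold and let `L` be a closed exact Lagrangian submanifold of
`T*N = (ℝⁿ × ℝⁿ) / Γ`. Let `P` be a Lagrangian plane in `ℝⁿ × ℝⁿ` which is invariant under the linear parts
of the elements of `Γ`, and let `k(p)` be a smooth function of the momentum `p`, also invariant under the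
linear parts, `h = ∇k`. Consider the field of Lagrangian planes
`P_(q, p) = {(v, w) : (v + Dh(p) w, w) ∈ P}` on `T*N`. If it is transverse to all tangent spaces of `L`, then
`L` is the image of the zero section under a symplectic diffeomorphism of `T*N`.

In particular (`k = 0`), for a counterexample `L` to Arnold's conjecture over a flat torus every Lagrangian
plane of `ℝⁿ × ℝⁿ` contains a tangent vector of `L`; and (`P` vertical), over any compact flat manifold, for
every `k` there is a tangent vector `(-Hess k(p) w, w)`, `w ≠ 0`, of `L` at a point `(q, p)`; for example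
`(-t w, w)`, for every real `t`, where `k = t ‖p‖² / 2`. There is no other condition: the dimension is
arbitrary, `L` may have caustics of every kind (with respect to the projection to `N`), be far away from
the zero section and have any topology.

The proof. The symplectic diffeomorphism `(q, p) ↦ (q + h(p), p)` reduces the theorem to the case `k = 0`.
Then `P` has no common vector with the zero section: let `(ξ, 0) ∈ P` be a unit vector for which the
maximum of `⟪p, ξ⟫` on `L` is as large as possible; then `(ξ, 0)` is tangent to `L` at the point where it is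
attained. Hence `P = {(-S w, w)}` with a symmetric matrix `S`, and the symplectic diffeomorphism
`(q, p) ↦ (q + S p, p)` of `T*N` moves `L` to an exact Lagrangian submanifold `L'` which is transverse to the
fibres. If two points `(x, p) ≠ (x, p')` of `L'` are over the same point, the difference of the values of
a primitive of `p dq` on `L'` at such pairs has a maximum, and there `p = p'`, a contradiction. So `L'` is the
graph of an exact form.

The definitions are in `Pool.Agent.NH28.EL.Dfs` and below.
-/

open scoped ContDiff

namespace Pool.Agent.Results.MP_3dbb84_gt.LagrangianPlaneField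

open Pool.Agent.NH28.EL.D

variable {n : ℕ}

/-- `P` is invariant under the linear parts of the elements of `Γ`, so it is a parallel field of planes on
`T*(ℝⁿ / Γ)`. -/
def IsParallel (Γ : Grp n) (P : Submodule ℝ (T n)) : Prop :=
  ∀ γ, In γ Γ → ∀ a ∈ P, (lin γ a.1, lin γ a.2) ∈ P

/-- the map `h : ℝⁿ → ℝⁿ` is smooth -/
def SmoothField (h : E n → E n) : Prop := ContDiff ℝ ∞ h

/-- the derivative of `h : ℝⁿ → ℝⁿ` at `p` on the vector `w` -/
noncomputable def derField (h : E n → E n) (p w : E n) : E n := fderiv ℝ h p w

/-- `h` is smooth, the gradient of the function `k` on `ℝⁿ`, and `k` is invariant under the linear parts of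
the elements of `Γ` -/
structure IsGradient (Γ : Grp n) (k : E n → ℝ) (h : E n → E n) : Prop where
  smooth : SmoothField h
  grad : ∀ p, Grad k (h p) p
  inv : ∀ γ, In γ Γ → ∀ p, k (lin γ p) = k p

/-- The field of planes `P_(q, p) = {(v, w) : (v + Dh(p) w, w) ∈ P}` is transverse to the tangent spaces of
`Λ`. -/
def IsTransverseField (Λ : Set (T n)) (P : Submodule ℝ (T n)) (h : E n → E n) : Prop :=
  ∀ z ∈ Λ, ∀ a, IsTangent Λ z a → (a.1 + derField h z.2 a.2, a.2) ∈ P → a = 0

/-- Let `Λ` be the preimage in `ℝⁿ × ℝⁿ` of a closed exact Lagrangian submanifold `L` of the cotangent bundle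
of the compact flat manifold `ℝⁿ / Γ`. Let `P` be a Lagrangian plane of `ℝⁿ × ℝⁿ` which is invariant under the
linear parts of `Γ`, and `h = ∇k` for a smooth function `k` on `ℝⁿ` which is invariant under the linear parts
of `Γ`. If `L` has no tangent vector `(v, w) ≠ 0` at a point `(q, p)` with `(v + Dh(p) w, w) ∈ P`, then `L` is the
image of the zero section under a symplectic diffeomorphism. -/
theorem result {n : ℕ} (Γ : Grp n) (hΓ : IsFlat Γ) (Λ : Set (T n)) (hΛ : IsLagrangian Γ Λ)
    (hE : IsExact Γ Λ) (P : Submodule ℝ (T n)) (hP : IsLagrangianPlane P) (hPΓ : IsParallel Γ P)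
    (k : E n → ℝ) (h : E n → E n) (hk : IsGradient Γ k h) (ht : IsTransverseField Λ P h) :
    IsImage Γ Λ :=
  image (Pool.Agent.NH28.EL.field Pool.Agent.NH28.EL.t_PUSH Pool.Agent.NH28.EL.t_FOL (flat hΓ)
    (lagrangian hΛ) (exact hE) P hP.1 hP.2 hPΓ k h hk.smooth hk.grad hk.inv
    fun z hz a ha h1 => ht z hz a ((tangent_iff Λ z a).1 ha) h1)

end Pool.Agent.Results.MP_3dbb84_gt.LagrangianPlaneField
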