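import Pool.Agent.NH28.EL.Pln
import Pool.Agent.NH28.EL.PUSH
import Pool.Agent.NH28.EL.GEN
import Pool.Agent.NH28.EL.HAM
import Pool.Agent.NH28.EL.Dfs

set_option autoImplicit false

/-!
# MP_3dbb84_gt, Q1: exact Lagrangian submanifolds of the cotangent bundle of a compact flat manifold whose
tangent spaces are one-sided with respect to a Hamiltonian function

Let `N = ℝⁿ / Γ` be any compact flat manifold and let `L` be a closed exact Lagrangian submanifold of `T*N`.
Suppose that there is a smooth function `H` on `T*N` such that, with the matrix `B = ∂²H/∂p²` at the point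
`z`, the tangent vectors `(v, w)` of `L` at `z` satisfy `⟪v, B w⟫ ≥ -C ‖v‖²` and `b ‖w‖ ≤ ‖B w‖ + C ‖v‖`, for
all `z ∈ L`, with constants `C` and `b > 0`. Then `L` is the image of the zero section under a symplectic
diffeomorphism of `T*N`.

In the starting file `LocallyOneSidedLagrangians` this is proved for tori, for quadratic functions
`H = ⟪B(q) p, p⟫ / 2`, under a condition on all PAIRS of points of `L` over neighbouring points of `N`.
Here `L` is exact, as in the question, and only its tangent spaces matter: nothing is assumed on the
position of the different sheets of `L`, `N` may have any holonomy group, and `H` is arbitrary (the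
matrix `B` may also depend on `p`, and be indefinite).

The proof: for small `t` the exact symplectic diffeomorphism with the generating function
`⟪q, p⟫ + t H(q, p)` (cut off for large `p`) moves `L` to an exact Lagrangian submanifold which is transverse
to the fibres. If it had two points over the same point of `N` then the difference of the values of a
primitive of `p dq` at such pairs would have a maximum, where the two points are equal. So it is the graph
of an exact form. All definitions are in `Pool.Agent.NH28.EL.Dfs`.
-/

namespace Pool.Agent.Results.MP_3dbb84_gt.OneSidedExact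

open Pool.Agent.NH28.EL.D

/-- Let `Λ` be the preimage in `ℝⁿ × ℝⁿ` of a closed exact Lagrangian submanifold `L` of the cotangent bundle
of the compact flat manifold `ℝⁿ / Γ`, and let `L` be one-sided with respect to the smooth function `H` on the
cotangent bundle, `g = ∂H/∂p`. Then `L` is the image of the zero section under a symplectic
diffeomorphism. -/
theorem result {n : ℕ} (Γ : Grp n) (hΓ : IsFlat Γ) (Λ : Set (T n)) (hΛ : IsLagrangian Γ Λ)
    (hE : IsExact Γ Λ) (H : T n → ℝ) (g : T n → E n) (hH : SmoothHam H) (hg : SmoothVec g)
    (hgH : IsGradP H g) (hHΓ : ∀ γ, In γ Γ → ∀ z, H (act γ z) = H z) (hC : IsOneSided Λ g) :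
    IsImage Γ Λ := by
  obtain ⟨Φ, hΦ, ht⟩ := Pool.Agent.NH28.EL.t_HAM Pool.Agent.NH28.EL.t_GEN n Γ (flat hΓ) Λ
    (lagrangian hΛ) H g hH hg hgH hHΓ (oneSided hC)
  exact image (Pool.Agent.NH28.EL.gen Pool.Agent.NH28.EL.t_PUSH (flat hΓ) (lagrangian hΛ) (exact hE) Φ
    hΦ ht)

end Pool.Agent.Results.MP_3dbb84_gt.OneSidedExact
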