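import Pool.Agent.NH28.EL.PAIRK
import Pool.Agent.NH28.EL.PUSH
import Pool.Agent.NH28.EL.FOL
import Pool.Agent.NH28.EL.Dfs

set_option autoImplicit false

/-!
# MP_3dbb84_gt, Q1: pairs of points of an exact Lagrangian submanifold in the leaves of a foliation

Let `N = ℝⁿ / Γ` be any compact flat manifold and let `L` be a closed exact Lagrangian submanifold of `T*N`. Let
`k(p)` be a smooth function of the momentum which is invariant under the linear parts of `Γ`, and `h = ∇k`. The
leaves `q + h(p) = const` form a Lagrangian foliation of `T*N`, the fibres for `k = 0`. For a point `z = (q, p)`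
of `L` let `V_z` be the space of the `w` such that `(-Dh(p) w, w)`, a vector tangent to the leaf, is tangent to
`L` at `z`.

If `L` meets some leaf more than once, then there are two different points `z = (q, p)`, `z' = (q', p')` of
`L` in a leaf such that `V_z ∩ V_z' ≠ 0` or `p - p' ∈ V_z + V_z'`. In other words: if there is no such pair, then
the map `L → N`, `(q, p) ↦ q + h(p)` is injective (hence a homeomorphism, by the invariance of domain, which is
not formalised). For `k = 0` this is the projection.

No transversality is assumed: `L` may be tangent to the leaves at any number of points. If `V_z = 0` for all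
`z`, then `L` is the image of the zero section, by `LagrangianPlaneField`. No symplectic diffeomorphism is
constructed here.

The proof. The exact symplectic diffeomorphism `(q, p) ↦ (q + h(p), p)` reduces the theorem to `k = 0`. Let `f`
be a primitive of `p dq` on `L`. On the compact set of the pairs of points of `L` in a fibre the function
`f(z) - f(z')` has a maximum, and if there are pairs with `z ≠ z'`, the maximum is also attained at such a
pair (if it is zero, then `f(z) = f(z')` for all pairs). There the theorem on Lagrange multipliers gives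
`(ξ, c) ≠ 0` with `ξ + c p` orthogonal to the image of `T_z L` in `ℝⁿ`, that is in `V_z`, and `ξ + c p' ∈ V_z'`.

The definitions are in `Pool.Agent.NH28.EL.Dfs` and below.
-/

open scoped ContDiff

namespace Pool.Agent.Results.MP_3dbb84_gt.PairsInLeaves

open Pool.Agent.NH28.EL.D

variable {n : ℕ}

/-- the map `h : ℝⁿ → ℝⁿ` is smooth -/
def SmoothField (h : E n → E n) : Prop := ContDiff ℝ ∞ h

/-- the derivative of `h : ℝⁿ → ℝⁿ` at `p` on the vector `w` -/
noncomputable def derField (h : E n → E n) (p w : E n) : E n := fderiv ℝ h p w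

/-- `h` is smooth, the gradient of the function `k` on `ℝⁿ`, and `k` is invariant under the linear parts of
the elements of `Γ` -/
structure IsGradient (Γ : Grp n) (k : E n → ℝ) (h : E n → E n) : Prop where
  smooth : SmoothField h
  grad : ∀ p, Grad k (h p) p
  inv : ∀ γ, In γ Γ → ∀ p, k (lin γ p) = k p

/-- `w ∈ V_z`: the vector `(-Dh(p) w, w)` is tangent to `Λ` at `z = (q, p)` -/
def LeafTangent (Λ : Set (T n)) (h : E n → E n) (z : T n) (w : E n) : Prop :=
  IsTangent Λ z (-derField h z.2 w, w)

/-- There are no two different points `z = (q, p)`, `z' = (q', p')` of `Λ` with `q + h(p) = q' + h(p')` and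
`V_z ∩ V_z' ≠ 0` or `p - p' ∈ V_z + V_z'`. (The sum is written with the difference of two vectors.) -/
def NoPair (Λ : Set (T n)) (h : E n → E n) : Prop :=
  ∀ z ∈ Λ, ∀ z' ∈ Λ, z.1 + h z.2 = z'.1 + h z'.2 → z ≠ z' → ∀ w w' : E n, LeafTangent Λ h z w →
    LeafTangent Λ h z' w' → (w = w' → w = 0) ∧ w - w' ≠ z.2 - z'.2

/-- Let `Λ` be the preimage in `ℝⁿ × ℝⁿ` of a closed exact Lagrangian submanifold `L` of the cotangent bundle
of the compact flat manifold `ℝⁿ / Γ`, and `h = ∇k` for a smooth function `k` on `ℝⁿ` which is invariant under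
the linear parts of `Γ`. If there are no two different points `z = (q, p)`, `z' = (q', p')` of `Λ` with
`q + h(p) = q' + h(p')` and `V_z ∩ V_z' ≠ 0` or `p - p' ∈ V_z + V_z'`, then `(q, p) ↦ q + h(p)` is injective on
`Λ`. -/
theorem result {n : ℕ} (Γ : Grp n) (hΓ : IsFlat Γ) (Λ : Set (T n)) (hΛ : IsLagrangian Γ Λ)
    (hE : IsExact Γ Λ) (k : E n → ℝ) (h : E n → E n) (hk : IsGradient Γ k h) (hS : NoPair Λ h) :
    ∀ z ∈ Λ, ∀ z' ∈ Λ, z.1 + h z.2 = z'.1 + h z'.2 → z = z' :=
  Pool.Agent.NH28.EL.t_PAIRK Pool.Agent.NH28.EL.t_PUSH Pool.Agent.NH28.EL.t_FOL (flat hΓ) (lagrangian hΛ)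
    (exact hE) k h hk.smooth hk.grad hk.inv
    fun z hz z' hz' h1 h2 w w' hw hw' => hS z hz z' hz' h1 h2 w w' ((tangent_iff Λ z _).1 hw)
      ((tangent_iff Λ z' _).1 hw')

end Pool.Agent.Results.MP_3dbb84_gt.PairsInLeaves
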