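import Pool.Agent.NH28.EL.Sec
import Pool.Agent.NH28.EL.LocP
import Pool.Agent.NH28.EL.PUSH
import Pool.Agent.NH28.EL.FOL
import Pool.Agent.NH28.EL.Dfs

set_option autoImplicit false

/-!
# MP_3dbb84_gt, Q1: exact Lagrangian submanifolds of the cotangent bundle of a compact flat manifold which
are thin along a parallel Lagrangian plane field at the scale of their curvature

Let `N = ℝⁿ / Γ` be any compact flat manifold, let `L` be a closed exact Lagrangian submanifold of
`T*N = (ℝⁿ × ℝⁿ) / Γ`, let `K > 0` be a bound for its second fundamental form with respect to the flat metric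
of `T*N`, let `P` be a Lagrangian plane in `ℝⁿ × ℝⁿ` which is invariant under the linear parts of `Γ` (for a flat
torus: any Lagrangian plane), and let `0 < r ≤ π / 2`. Suppose that there are no points `z`, `z'` of the
preimage of `L` in `ℝⁿ × ℝⁿ` such that the component of `z - z'` in `P` has norm at least `(2 / K) sin r`, and the
component orthogonal to `P` has norm at most `(2 / K) (1 - cos r)`. Then `L` is the image of the zero
section under a symplectic diffeomorphism. If `P` is the vertical plane `{q = 0}` then `L` is the graph of an
exact form.

For example, if `P` is vertical and `r = π / 2`, the condition is `‖p - p'‖ < 2 / K` for all pairs of points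
`(q, p)`, `(q', p')` with `‖q - q'‖ ≤ 2 / K`; it holds if `osc(p) K < 2`, but the condition is local in `q`,
and `osc(p) K` may be large. So a counterexample to Arnold's conjecture over a compact flat manifold has, for
every parallel Lagrangian plane `P` and every `r`, two points whose difference is close to `P` in this
sense. (For vertical `P` the condition, as `r` varies, is also necessary for a graph: the graph of `dg`
satisfies it if `tan (r / 2) ‖Hess g‖ < 1`. The constants are the best possible ones for the transversality
to `P`. Both remarks are not formalised.)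

The proof. Suppose that the unit vector `b ∈ P` is tangent to `L` at `z`. Along the geodesic `c` of `L` with
the initial velocity `b` the angle between `c'(t)` and `b` is at most `K |t|`, so that between `t = -r / K` and
`t = r / K` the component of `c(t)` in the direction of `b` grows by at least `∫ cos (K t) dt = (2 / K) sin r`,
and each component orthogonal to `b` changes by at most `∫ sin (K |t|) dt = (2 / K) (1 - cos r)`, a
contradiction. So `L` is transverse to `P`. Then `P` has no common vector with the zero section
(`(ξ, 0) ∈ P` would be tangent to `L` where `⟪p, ξ⟫` is maximal), hence `P = {(-S w, w)}`, and the symplectic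
diffeomorphism `(q, p) ↦ (q + S p, p)` of `T*N` moves `L` to an exact Lagrangian submanifold `L'` which is
transverse to the fibres. If two different points of `L'` are over the same point of `N`, the difference
of the values of a primitive of `p dq` on `L'` at such pairs has a maximum, and there the two points are
equal, a contradiction. So `L'` is the graph of an exact form.

The definitions are in `Pool.Agent.NH28.EL.Dfs` and below.
-/

namespace Pool.Agent.Results.MP_3dbb84_gt.ThinAlongPlane

open Pool.Agent.NH28.EL.D

variable {n : ℕ}

/-- `P` is invariant under the linear parts of the elements of `Γ`, so it is a parallel field of planes on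
`T*(ℝⁿ / Γ)`. -/
def IsParallel (Γ : Grp n) (P : Submodule ℝ (T n)) : Prop :=
  ∀ γ, In γ Γ → ∀ a ∈ P, (lin γ a.1, lin γ a.2) ∈ P

/-- the scalar product of `ℝⁿ × ℝⁿ` -/
noncomputable def dot (a b : T n) : ℝ := ip a.1 b.1 + ip a.2 b.2

/-- If `z`, `z'` are points of `Λ` and the component of `z - z'` in `P` has norm at least `(2 / K) sin r`, then
the component orthogonal to `P` has norm greater than `(2 / K) (1 - cos r)`. -/
def IsThinAlong (Λ : Set (T n)) (P : Submodule ℝ (T n)) (K r : ℝ) : Prop :=
  ∀ z ∈ Λ, ∀ z' ∈ Λ, ∀ a ∈ P, nsq a = 1 → 2 / K * Real.sin r ≤ dot (z - z') a →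
    ∃ e : T n, nsq e = 1 ∧ (∀ b ∈ P, dot e b = 0) ∧ 2 / K * (1 - Real.cos r) < dot (z - z') e

/-- Let `Λ` be the preimage in `ℝⁿ × ℝⁿ` of a closed exact Lagrangian submanifold `L` of the cotangent bundle
of the compact flat manifold `ℝⁿ / Γ`, with second fundamental form bounded by `K > 0`. Let `P` be a
Lagrangian plane which is invariant under the linear parts of `Γ`, and `0 < r ≤ π / 2`. If there are no
points `z`, `z'` of `Λ` such that the component of `z - z'` in `P` has norm at least `(2 / K) sin r` and the
component orthogonal to `P` has norm at most `(2 / K) (1 - cos r)`, then `L` is the image of the zero section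
under a symplectic diffeomorphism. If `P` contains the vectors `(0, w)`, then `L` is the graph of an exact
form. -/
theorem result {n : ℕ} (Γ : Grp n) (hΓ : IsFlat Γ) (Λ : Set (T n)) (hΛ : IsLagrangian Γ Λ)
    (hE : IsExact Γ Λ) (P : Submodule ℝ (T n)) (hP : IsLagrangianPlane P) (hPΓ : IsParallel Γ P)
    (K r : ℝ) (hK : 0 < K) (hC : HasCurvatureLE Λ K) (hr : 0 < r) (hr2 : r ≤ Real.pi / 2)
    (hT : IsThinAlong Λ P K r) : IsImage Γ Λ ∧ ((∀ w : E n, ((0 : E n), w) ∈ P) → IsGraph Γ Λ) := by
  have ht := Pool.Agent.NH28.EL.t_LOCP n Λ P K r hK (curvature hC) hr hr2 hT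
  refine ⟨image (Pool.Agent.NH28.EL.parallel Pool.Agent.NH28.EL.t_PUSH Pool.Agent.NH28.EL.t_FOL (flat hΓ)
    (lagrangian hΛ) (exact hE) P hP.1 hP.2 hPΓ ht), fun hv => ?_⟩
  refine graph (Pool.Agent.NH28.EL.graph_of_transverse (flat hΓ) (lagrangian hΛ) (exact hE) ?_)
  intro z hz a ha h0
  have h1 : a = ((0 : E n), a.2) := Prod.ext h0 rfl
  exact ht z hz a (by rw [h1]; exact hv a.2) ha

end Pool.Agent.Results.MP_3dbb84_gt.ThinAlongPlane
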